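import Pool.Agent.helper80.SG.Spec2

set_option autoImplicit false
set_option linter.unusedSectionVars false

namespace Pool.Agent.SG

open MvPolynomial Module Pool.Agent.SV

theorem RL5_mono {E Y Z : Type} [AddCommGroup E] [Module ℂ E] [Module.Finite ℂ E] [AddCommGroup Y]
    [Module ℂ Y] [AddCommGroup Z] [Module ℂ Z] (f : E →ₗ[ℂ] Y) (g : E →ₗ[ℂ] Z)
    (h : LinearMap.ker f ≤ LinearMap.ker g) :
    finrank ℂ (LinearMap.range g) ≤ finrank ℂ (LinearMap.range f) := by
  have h1 := LinearMap.finrank_range_add_finrank_ker f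
  have h2 := LinearMap.finrank_range_add_finrank_ker g
  have h3 := Submodule.finrank_mono h
  omega

theorem RL5_cases : ∀ (ρ : Fin 4) (a : Fin 3), ¬ (ρ = 0 ∨ ρ = 1 ∨ (ρ = 2 ∧ a ≠ 2)) →
    ρ = 3 ∨ (ρ = 2 ∧ a = 2) := by decide

/-- the gradient at `x` vanishes, so does the value -/
theorem RL5_val (hE : EUL_stmt) {ι κ : Type} [Fintype ι] [DecidableEq ι] [Fintype κ]
    [DecidableEq κ] (c : ι → κ) (d : κ → ℕ) (hd : ∃ k, 1 ≤ d k) (f : MvPolynomial ι ℂ)
    (hf : f ∈ Sec c Finset.univ d) (x : ι → ℂ) (h : ∀ i, eval x (pderiv i f) = 0) :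
    eval x f = 0 := by
  obtain ⟨k, hk⟩ := hd
  have h1 := hE c Finset.univ d f hf k x
  have h2 : ∑ i ∈ Finset.univ.filter (fun i => c i = k), x i * eval x (pderiv i f) = 0 :=
    Finset.sum_eq_zero fun i _ => by rw [h i, mul_zero]
  rw [h2] at h1
  have h3 : (d k : ℂ) ≠ 0 := by
    have : d k ≠ 0 := by omega
    exact_mod_cast this
  rcases mul_eq_zero.mp h1.symm with h4 | h4
  · exact absurd h4 h3
  · exact h4

theorem RL5_ker (hE : EUL_stmt) (hI : ID3_stmt) {ι κ : Type} [Fintype ι] [DecidableEq ι]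
    [Fintype κ] [DecidableEq κ] (c : ι → κ) (T : Finset κ) (d : κ → ℕ) (hd : ∃ k, 1 ≤ d k)
    (hT : ∑ k ∈ T, d k = 3) (ρ : Fin 4) (P : (ι → ℂ) × (ι → ℂ)) :
    LinearMap.ker (Phi5 c T d (some ρ) P) ≤ LinearMap.ker (roleS c T d ρ P) := by
  intro f hf
  rw [LinearMap.mem_ker] at hf ⊢
  have hF : ∀ o, used5 (some ρ) o = true → roleF c T P o (f : MvPolynomial ι ℂ) = 0 := by
    intro o ho
    have := congrFun hf o
    rw [Phi5_apply, if_pos ho] at this
    simpa using this
  funext o
  have hgoal : used ρ o = true → roleF c T P o (f : MvPolynomial ι ℂ) = 0 := by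
    intro ho
    by_cases h5 : used5 (some ρ) o = true
    · exact hF o h5
    · rcases o with _ | ⟨a, _ | i⟩
      · exact absurd ho h5
      · -- the value at the point `a`
        have hρ : ρ = 3 ∨ (ρ = 2 ∧ a = 2) := by
          simp only [used5, decide_eq_true_eq] at h5
          exact RL5_cases ρ a h5
        rcases hρ with hρ | ⟨hρ, ha⟩
        · subst hρ
          have hg : ∀ b : Fin 3, b ≠ 2 → ∀ i, eval (ptc c T b P)
              (pderiv i (f : MvPolynomial ι ℂ)) = 0 := by
            intro b hb i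
            have := hF (some (b, some i)) (by simp [used5, hb])
            simpa [roleF] using this
          have hv : ∀ b : Fin 3, b ≠ 2 → eval (ptc c T b P) (f : MvPolynomial ι ℂ) = 0 :=
            fun b hb => RL5_val hE c d hd _ f.2 _ (hg b hb)
          have h0 : (0 : Fin 3) ≠ 2 := by decide
          have h1 : (1 : Fin 3) ≠ 2 := by decide
          have h2 : eval (ptc c T 2 P) (f : MvPolynomial ι ℂ) = 0 := by
            rw [hI c T d hT _ f.2 P, hv 0 h0, hv 1 h1,
              Finset.sum_eq_zero fun i _ => by rw [hg 0 h0 i, mul_zero],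
              Finset.sum_eq_zero fun i _ => by rw [hg 1 h1 i, mul_zero]]
            simp
          have h3 : eval (ptc c T a P) (f : MvPolynomial ι ℂ) = 0 := by
            by_cases ha : a = 2
            · rw [ha]; exact h2
            · exact hv a ha
          simpa [roleF] using h3
        · subst hρ
          subst ha
          have hg : ∀ i, eval (ptc c T 2 P) (pderiv i (f : MvPolynomial ι ℂ)) = 0 := by
            intro i
            have := hF (some (2, some i)) (by simp [used5])
            simpa [roleF] using this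
          have h3 := RL5_val hE c d hd _ f.2 _ hg
          simpa [roleF] using h3
      · exact absurd ho h5
  by_cases ho : used ρ o = true
  · simpa [roleS, roleL, ho] using hgoal ho
  · simp [roleS, roleL, ho]

theorem RL5 (hS : RLS_stmt) (hH : RLH_stmt) (hR : RLT_stmt) (hI : ID3_stmt) (hE : EUL_stmt)
    (hK : RKL_stmt) : RL5_stmt := by
  intro ι κ _ _ _ _ c T d hc hdT hT2 hT3 t
  have hd : ∃ k, 1 ≤ d k := by
    by_contra hcon
    push Not at hcon
    have : ∑ k ∈ T, d k = 0 := Finset.sum_eq_zero fun k _ => by have := hcon k; omega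
    omega
  have key : ∀ (ρ : Fin 4) (P : (ι → ℂ) × (ι → ℂ)),
      finrank ℂ (LinearMap.range (roleS c T d ρ P)) ≤
        finrank ℂ (LinearMap.range (Phi5 c T d (some ρ) P)) :=
    fun ρ P => RL5_mono _ _ (RL5_ker hE hI c T d hd hT3 ρ P)
  rcases t with _ | ρ
  · obtain ⟨x, hx, -⟩ := hK c Finset.univ Finset.univ d (Finset.Subset.refl _)
      (fun k => by obtain ⟨i, hi⟩ := hc k; exact ⟨i, Finset.mem_univ _, hi⟩) hd
    refine ⟨(x, 0), le_trans hx (RL5_mono _ _ ?_)⟩
    intro f hf
    rw [LinearMap.mem_ker] at hf ⊢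
    funext i
    have h1 := congrFun hf (some (0, some i))
    rw [Phi5_apply] at h1
    have h2 : used5 none (some ((0 : Fin 3), some i)) = true := by simp [used5]
    rw [if_pos h2] at h1
    have h3 : ptc c T 0 (x, (0 : ι → ℂ)) = x := by
      funext i
      simp [ptc]
    have h4 : cut Finset.univ x = x := by
      funext i
      simp [cut]
    simpa [Phi1, gradL_apply, roleF, h3, h4] using h1
  · fin_cases ρ
    · obtain ⟨P, hP⟩ := (hR c T d hc hdT hT2 hT3).2
      exact ⟨P, by simpa [rk5, rk] using le_trans hP (key 0 P)⟩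
    · obtain ⟨P, hP⟩ := (hR c T d hc hdT hT2 hT3).1
      exact ⟨P, by simpa [rk5, rk] using le_trans hP (key 1 P)⟩
    · obtain ⟨P, hP⟩ := hH c T d hc hdT hT2 hT3
      exact ⟨P, by simpa [rk5, rk] using le_trans hP (key 2 P)⟩
    · obtain ⟨P, hP⟩ := hS c T d hc hdT hT2 hT3
      exact ⟨P, by simpa [rk5, rk] using le_trans hP (key 3 P)⟩

end Pool.Agent.SG
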